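import Pool.Agent.H65.Sol5

namespace Pool.Agent.Results.MP_f61096_al.Abelian

open Pool.Agent.H65.Squier

/-- Every finitely presented solvable diagram group is abelian. -/
theorem result (A : Type) (R : Set (List A × List A)) (hR : ∀ r ∈ R, r.1 ≠ [] ∧ r.2 ≠ [])
    (w : Vtx R) (h1 : Group.IsFinitelyPresented (DiagramGroup R w))
    (h2 : Group.IsSolvable (DiagramGroup R w)) (x y : DiagramGroup R w) : x * y = y * x := by
  obtain ⟨φ⟩ := loop_equiv hR w
  have := Group.IsFinitelyPresented.equiv φ
  have := Group.isSolvable_of_surjective (f := φ.toMonoidHom) φ.surjective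
  exact φ.injective (by rw [map_mul, map_mul, solv hR (ns hR)])

end Pool.Agent.Results.MP_f61096_al.Abelian
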